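import Pool.Agent.TetVol.Mult

set_option autoImplicit false

namespace Pool.Agent.Results.MP_1a4c75_nt.Multiplicity

open Pool.Agent.TetVol

/-- For every `N ≥ 1` there are at least `d(N)` (the number of the divisors of `N`) pairwise non-congruent tetrahedra with
integer edges and volume `60 N^3`. -/
theorem result (N : ℕ) (hN : 0 < N) : ∃ F : ℕ → Fin 4 → EuclideanSpace ℝ (Fin 3),
    (∀ s ∈ N.divisors, IsTet (F s) (60 * N ^ 3)) ∧
    ∀ s ∈ N.divisors, ∀ s' ∈ N.divisors, s ≠ s' → ¬ Congr (F s) (F s') :=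
  mult N hN

end Pool.Agent.Results.MP_1a4c75_nt.Multiplicity
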