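import Pool.Agent.TetVol.Classes

set_option autoImplicit false

namespace Pool.Agent.Results.MP_1a4c75_nt.PositiveProportion

open Pool.Agent.TetVol

/-- `3 k s^3` is the volume of a tetrahedron with integer edges for every `s ≥ 1` and every `k ≥ 1` in one of `82` of the
`640` residue classes modulo `640`. -/
theorem result (k s : ℕ) (hk : 0 < k) (hs : 0 < s)
    (h : 20 ∣ k ∨ k % 40 = 4 ∨ k % 40 = 36 ∨ k % 80 = 32 ∨ k % 80 = 48 ∨ 128 ∣ k) :
    IsVol (3 * k * s ^ 3) :=
  classes k s hk hs h

end Pool.Agent.Results.MP_1a4c75_nt.PositiveProportion
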