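import Pool.Agent.TetVol.Sym

set_option autoImplicit false

namespace Pool.Agent.Results.MP_1a4c75_nt.SymmetricFinite

open Pool.Agent.TetVol

/-- For every `V ≥ 1` there are, up to congruence, only finitely many tetrahedra with integer edges and volume `V` which
have a symmetry other than the identity: only finitely many distance matrices occur. -/
theorem result (V : ℕ) (hV : 0 < V) : {d : Fin 4 → Fin 4 → ℝ |
    ∃ p : Fin 4 → EuclideanSpace ℝ (Fin 3), IsTet p V ∧ Symm p ∧
      ∀ i j, d i j = dist (p i) (p j)}.Finite :=
  symm_finite V hV

end Pool.Agent.Results.MP_1a4c75_nt.SymmetricFinite
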